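import Mathlib

/-!
# Convex drawings with few charged crossings: basic notions (MP_f04076_co)

The vertices lie on a circle; `pos` is their position (clockwise, from any starting point).  Edges are chords.
-/

set_option autoImplicit false

open Finset

namespace Pool.Agent.Lib_MP_f04076

section Order

variable {V : Type} (pos : V → ℕ)

/-- `x` lies strictly between `u` and `v`. -/
def Btw (u v x : V) : Prop := (pos u < pos x ∧ pos x < pos v) ∨ (pos v < pos x ∧ pos x < pos u)

/-- `x` lies strictly outside the interval of `u` and `v`. -/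
def Out (u v x : V) : Prop := (pos x < pos u ∧ pos x < pos v) ∨ (pos u < pos x ∧ pos v < pos x)

/-- The chords `uv` and `xy` cross: exactly one of `x, y` is strictly between `u` and `v`, the other one is strictly
outside. -/
def Cr (u v x y : V) : Prop := (Btw pos u v x ∧ Out pos u v y) ∨ (Out pos u v x ∧ Btw pos u v y)

variable {pos}

theorem Cr.symm {u v x y : V} (h : Cr pos u v x y) : Cr pos x y u v := by
  simp only [Cr, Btw, Out] at *
  omega

theorem Cr.swap_right {u v x y : V} (h : Cr pos u v x y) : Cr pos u v y x := by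
  simp only [Cr, Btw, Out] at *
  omega

theorem Cr.swap_left {u v x y : V} (h : Cr pos u v x y) : Cr pos v u x y := by
  simp only [Cr, Btw, Out] at *
  omega

/-- separation by a chord `ab`: `z` outside, `x` inside, `zw` and `xy` cross, `zw` does not cross `ab`; then `y` is outside. -/
theorem sep_out {a b z w x y : V} (hz : Out pos a b z) (hx : Btw pos a b x)
    (hc : Cr pos z w x y) (hn : ¬ Cr pos a b z w) : Out pos a b y := by
  simp only [Cr, Btw, Out] at *
  omega

theorem sep_in {a b z w x y : V} (hz : Btw pos a b z) (hx : Out pos a b x)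
    (hc : Cr pos z w x y) (hn : ¬ Cr pos a b z w) : Btw pos a b y := by
  simp only [Cr, Btw, Out] at *
  omega

end Order

section Counting

theorem dcount {α β : Type} [DecidableEq α] [DecidableEq β] (S : Finset α) (J : Finset β)
    (R1 R2 : α → β → Prop) [∀ s, DecidablePred (R1 s)] [∀ s, DecidablePred (R2 s)]
    [∀ j, DecidablePred fun s => R2 s j]
    (h k1 k2 : ℕ)
    (hS : ∀ s ∈ S, h ≤ (J.filter fun j => R1 s j ∨ R2 s j).card)
    (h1 : ∀ s ∈ S, (J.filter fun j => R1 s j).card ≤ k1)
    (h2 : ∀ j ∈ J, (S.filter fun s => R2 s j).card ≤ k2) :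
    S.card * h ≤ k1 * S.card + k2 * J.card := by
  have e1 : S.card * h ≤ ∑ s ∈ S, (J.filter fun j => R1 s j ∨ R2 s j).card := by
    rw [← smul_eq_mul]
    exact Finset.card_nsmul_le_sum _ _ _ hS
  have e2 : ∑ s ∈ S, (J.filter fun j => R1 s j ∨ R2 s j).card ≤
      ∑ s ∈ S, ((J.filter fun j => R1 s j).card + (J.filter fun j => R2 s j).card) := by
    apply Finset.sum_le_sum
    intro s _
    rw [Finset.filter_or]
    exact Finset.card_union_le _ _
  have e3 : ∑ s ∈ S, (J.filter fun j => R1 s j).card ≤ k1 * S.card := by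
    rw [mul_comm, ← smul_eq_mul]
    exact Finset.sum_le_card_nsmul _ _ _ h1
  have e4 : ∑ s ∈ S, (J.filter fun j => R2 s j).card = ∑ j ∈ J, (S.filter fun s => R2 s j).card := by
    simp only [Finset.card_filter]
    exact Finset.sum_comm
  have e5 : ∑ j ∈ J, (S.filter fun s => R2 s j).card ≤ k2 * J.card := by
    rw [mul_comm, ← smul_eq_mul]
    exact Finset.sum_le_card_nsmul _ _ _ h2
  rw [Finset.sum_add_distrib] at e2
  omega

end Counting

section Dist

variable {V : Type}

/-- `lam` is the distance from `r` along `R`. -/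
structure IsDist (R : V → V → Prop) (r : V) (lam : V → ℕ) : Prop where
  root : lam r = 0
  step : ∀ z x, R z x → lam x ≤ lam z + 1
  pred : ∀ x, x ≠ r → ∃ z, R z x ∧ lam x = lam z + 1

/-- reachable in exactly `n` steps -/
def ReachIn (R : V → V → Prop) (r : V) : ℕ → V → Prop
  | 0, x => x = r
  | n + 1, x => ∃ z, ReachIn R r n z ∧ R z x

theorem exists_dist (R : V → V → Prop) (r : V) (h : ∀ x, Relation.ReflTransGen R r x) :
    ∃ lam : V → ℕ, IsDist R r lam := by
  classical
  have hr : ∀ x, ∃ n, ReachIn R r n x := by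
    intro x
    induction h x with
    | refl => exact ⟨0, rfl⟩
    | tail _ hbc ih =>
      obtain ⟨n, hn⟩ := ih
      exact ⟨n + 1, _, hn, hbc⟩
  refine ⟨fun x => Nat.find (hr x), ?_, ?_, ?_⟩
  · have : Nat.find (hr r) ≤ 0 := Nat.find_min' (hr r) rfl
    exact Nat.le_zero.1 this
  · intro z x hzx
    exact Nat.find_min' (hr x) ⟨z, Nat.find_spec (hr z), hzx⟩
  · intro x hx
    have hs := Nat.find_spec (hr x)
    rcases hn : Nat.find (hr x) with _ | n
    · rw [hn] at hs
      exact absurd hs hx
    · rw [hn] at hs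
      obtain ⟨z, hz, hzx⟩ := hs
      refine ⟨z, hzx, ?_⟩
      have h1 : Nat.find (hr z) ≤ n := Nat.find_min' (hr z) hz
      have h2 : Nat.find (hr x) ≤ Nat.find (hr z) + 1 :=
        Nat.find_min' (hr x) ⟨z, Nat.find_spec (hr z), hzx⟩
      simp only [hn] at *
      omega

end Dist

section Main

variable {V : Type} (pos : V → ℕ) (G : SimpleGraph V) (A : Sym2 V → Finset (Sym2 V))

/-- the edge `zw` is upper with respect to the edge `xy` -/
def Up (mu : V → ℕ) (z w x y : V) : Prop := min (mu z) (mu w) < min (mu x) (mu y)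

/-- the arcs along which the next distance function is measured -/
def Arc (L : List (V → ℕ)) (z x : V) : Prop :=
  G.Adj z x ∨ ∃ w y, G.Adj z w ∧ G.Adj x y ∧ Cr pos z w x y ∧
    ¬ (s(z, w) ∈ A s(x, y) ∧ ∃ mu ∈ L, Up mu z w x y)

/-- a nest of chords `a j, b j`, `j ≤ m` -/
structure Nest (m : ℕ) (a b : ℕ → V) : Prop where
  adj : ∀ j ≤ m, G.Adj (a j) (b j)
  ab : ∀ j ≤ m, pos (a j) < pos (b j)
  a_lt : ∀ i j, i < j → j ≤ m → pos (a i) < pos (a j)
  b_lt : ∀ i j, i < j → j ≤ m → pos (b j) < pos (b i)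

/-- the vertices neither strictly outside chord `p` nor strictly inside chord `q` -/
def Zone (a b : ℕ → V) (p q : ℕ) (x : V) : Prop :=
  pos (a p) ≤ pos x ∧ pos x ≤ pos (b p) ∧ ¬ (pos (a q) < pos x ∧ pos x < pos (b q))

/-- the common level of the upper ends of the chords -/
def lev (a b : ℕ → V) (mu : V → ℕ) : ℕ := min (mu (a 0)) (mu (b 0))

/-- the functions of `L` are constant on the left ends and on the right ends -/
def Const (m : ℕ) (a b : ℕ → V) (L : List (V → ℕ)) : Prop :=
  ∀ mu ∈ L, ∀ j ≤ m, mu (a j) = mu (a 0) ∧ mu (b j) = mu (b 0)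

/-- edges with an end in the zone are not upper -/
def HH (a b : ℕ → V) (L : List (V → ℕ)) (p q : ℕ) : Prop :=
  ∀ x, Zone pos a b p q x → ∀ mu ∈ L, lev a b mu ≤ mu x ∧ ∀ y, G.Adj x y → lev a b mu ≤ mu y

open Classical in
/-- the upper edges which cross all chords of the window -/
noncomputable def Full [Fintype V] (a b : ℕ → V) (L : List (V → ℕ)) (p q : ℕ) : Finset (Sym2 V) :=
  univ.filter fun e => ∃ z w, e = s(z, w) ∧ G.Adj z w ∧ Out pos (a p) (b p) z ∧ Btw pos (a q) (b q) w ∧
    ∃ mu ∈ L, mu z < lev a b mu ∨ mu w < lev a b mu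

theorem mem_full [Fintype V] {pos : V → ℕ} {G : SimpleGraph V} {a b : ℕ → V} {L : List (V → ℕ)} {p q : ℕ}
    {e : Sym2 V} :
    e ∈ Full pos G a b L p q ↔ ∃ z w, e = s(z, w) ∧ G.Adj z w ∧ Out pos (a p) (b p) z ∧ Btw pos (a q) (b q) w ∧
      ∃ mu ∈ L, mu z < lev a b mu ∨ mu w < lev a b mu := by
  classical
  rw [Full, Finset.mem_filter]
  exact ⟨fun h => h.2, fun h => ⟨Finset.mem_univ _, h⟩⟩

end Main

end Pool.Agent.Lib_MP_f04076
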