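import Pool.Agent.Lib_MP_f04076.Few

set_option autoImplicit false

open Finset

namespace Pool.Agent.Lib_MP_f04076

variable {V : Type} {pos : V → ℕ} {G : SimpleGraph V} {A : Sym2 V → Finset (Sym2 V)} {k m : ℕ} {a b : ℕ → V}

theorem not_zone (hN : Nest pos G m a b) {p q : ℕ} (hp : p ≤ m) (hq : q ≤ m) {x : V}
    (h : ¬ Zone pos a b p q x) : Out pos (a p) (b p) x ∨ Btw pos (a q) (b q) x := by
  have h1 := hN.ab p hp
  have h2 := hN.ab q hq
  simp only [Zone] at h
  simp only [Out, Btw]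
  omega

theorem Out.not_zone (hN : Nest pos G m a b) {p q : ℕ} (hp : p ≤ m) {x : V}
    (h : Out pos (a p) (b p) x) : ¬ Zone pos a b p q x := by
  have h1 := hN.ab p hp
  simp only [Out] at h
  simp only [Zone]
  omega

theorem Btw.not_zone (hN : Nest pos G m a b) {p q : ℕ} (hq : q ≤ m) {x : V}
    (h : Btw pos (a q) (b q) x) : ¬ Zone pos a b p q x := by
  have h1 := hN.ab q hq
  simp only [Btw] at h
  simp only [Zone]
  omega

theorem Zone.mono (hN : Nest pos G m a b) {p0 q0 p q : ℕ} (hp : p0 ≤ p) (hpm : p ≤ m) (hq : q ≤ q0) (hq0 : q0 ≤ m)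
    {x : V} (h : Zone pos a b p q x) : Zone pos a b p0 q0 x := by
  have h1 := hN.a_le hp hpm
  have h2 := hN.b_le hp hpm
  have h3 := hN.a_le hq hq0
  have h4 := hN.b_le hq hq0
  simp only [Zone] at h ⊢
  omega

theorem Out.mono (hN : Nest pos G m a b) {i j : ℕ} (hij : i ≤ j) (hj : j ≤ m) {x : V}
    (h : Out pos (a i) (b i) x) : Out pos (a j) (b j) x := by
  have h1 := hN.a_le hij hj
  have h2 := hN.b_le hij hj
  have h3 := hN.ab i (hij.trans hj)
  have h4 := hN.ab j hj
  simp only [Out] at h ⊢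
  omega

theorem Btw.mono (hN : Nest pos G m a b) {i j : ℕ} (hij : i ≤ j) (hj : j ≤ m) {x : V}
    (h : Btw pos (a j) (b j) x) : Btw pos (a i) (b i) x := by
  have h1 := hN.a_le hij hj
  have h2 := hN.b_le hij hj
  have h3 := hN.ab i (hij.trans hj)
  have h4 := hN.ab j hj
  simp only [Btw] at h ⊢
  omega

theorem Out.not_btw {u v x : V} (h : Out pos u v x) : ¬ Btw pos u v x := by
  simp only [Out] at h
  simp only [Btw]
  omega

/-- if an edge at `z` crosses the chord `j` then `z` is at level at least `lev - 1`, unless the edge is upper -/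
theorem rung_step (hN : Nest pos G m a b) {L : List (V → ℕ)} (hL : Const m a b L) {lam : V → ℕ} {r : V}
    (hlam : IsDist (Arc pos G A L) r lam) (hcl : ∀ j ≤ m, lam (a j) = lam (a 0) ∧ lam (b j) = lam (b 0))
    {z w : V} (hzw : G.Adj z w) {j : ℕ} (hj : j ≤ m) (hc : Cr pos z w (a j) (b j)) :
    lev a b lam ≤ lam z + 1 ∨ ∃ mu ∈ L, mu z < lev a b mu ∨ mu w < lev a b mu := by
  by_cases hex : s(z, w) ∈ A s(a j, b j) ∧ ∃ mu ∈ L, Up mu z w (a j) (b j)
  · right
    obtain ⟨-, mu, hmu, hup⟩ := hex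
    refine ⟨mu, hmu, ?_⟩
    obtain ⟨h1, h2⟩ := hL mu hmu j hj
    simp only [Up, h1, h2] at hup
    simp only [lev]
    omega
  · left
    have harc : Arc pos G A L z (a j) := Or.inr ⟨w, b j, hzw, hN.adj j hj, hc, hex⟩
    have h1 := hlam.step _ _ harc
    obtain ⟨h2, -⟩ := hcl j hj
    simp only [lev]
    omega

/-- an upper edge which crosses a chord of the window crosses all of them -/
theorem full_of [Fintype V] (hN : Nest pos G m a b) {L : List (V → ℕ)} {p q : ℕ} (hq : q ≤ m)
    (hH : HH pos G a b L p q) {z w : V} (hzw : G.Adj z w) {j : ℕ} (hpj : p ≤ j) (hjq : j ≤ q)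
    (hc : Cr pos z w (a j) (b j)) (hup : ∃ mu ∈ L, mu z < lev a b mu ∨ mu w < lev a b mu) :
    s(z, w) ∈ Full pos G a b L p q := by
  obtain ⟨mu, hmu, hup⟩ := hup
  have hz : ¬ Zone pos a b p q z := by
    intro h
    obtain ⟨h1, h2⟩ := hH z h mu hmu
    have h3 := h2 w hzw
    omega
  have hw : ¬ Zone pos a b p q w := by
    intro h
    obtain ⟨h1, h2⟩ := hH w h mu hmu
    have h3 := h2 z hzw.symm
    omega
  have hz' := not_zone hN (by omega) hq hz
  have hw' := not_zone hN (by omega) hq hw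
  rw [mem_full]
  rcases hc.symm with ⟨h1, h2⟩ | ⟨h1, h2⟩
  · -- z inside, w outside
    have h3 : Out pos (a p) (b p) w := by
      rcases hw' with h | h
      · exact h
      · exact absurd (Btw.mono hN hjq hq h) h2.not_btw
    have h4 : Btw pos (a q) (b q) z := by
      rcases hz' with h | h
      · exact absurd h1 (Out.mono hN hpj (by omega) h).not_btw
      · exact h
    exact ⟨w, z, Sym2.eq_swap, hzw.symm, h3, h4, mu, hmu, hup.symm⟩
  · have h3 : Out pos (a p) (b p) z := by
      rcases hz' with h | h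
      · exact h
      · exact absurd (Btw.mono hN hjq hq h) h1.not_btw
    have h4 : Btw pos (a q) (b q) w := by
      rcases hw' with h | h
      · exact absurd h2 (Out.mono hN hpj (by omega) h).not_btw
      · exact h
    exact ⟨z, w, rfl, hzw, h3, h4, mu, hmu, hup⟩

/-- an allowed arc from an upper edge into an edge at the zone is paid by the upper edge -/
theorem kept_paid (hcr : ∀ z w x y, G.Adj z w → G.Adj x y → Cr pos z w x y →
      s(x, y) ∈ A s(z, w) ∨ s(z, w) ∈ A s(x, y)) {L : List (V → ℕ)} {p q : ℕ}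
    (hH : HH pos G a b L p q) {z w x y : V} (hzw : G.Adj z w) (hxy : G.Adj x y) (hc : Cr pos z w x y)
    (hx : Zone pos a b p q x) (hup : ∃ mu ∈ L, mu z < lev a b mu ∨ mu w < lev a b mu)
    (hkept : ¬ (s(z, w) ∈ A s(x, y) ∧ ∃ mu ∈ L, Up mu z w x y)) : s(x, y) ∈ A s(z, w) := by
  obtain ⟨mu, hmu, hup⟩ := hup
  obtain ⟨h1, h2⟩ := hH x hx mu hmu
  have h3 := h2 y hxy
  rcases hcr z w x y hzw hxy hc with h | h
  · exact h
  · refine absurd ⟨h, mu, hmu, ?_⟩ hkept
    simp only [Up]
    omega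

theorem root_not_zone (hN : Nest pos G m a b) {r : V} (hr : ∀ x, pos r ≤ pos x) {p q : ℕ} (hp : 1 ≤ p)
    (hpm : p ≤ m) {x : V} (hx : Zone pos a b p q x) : x ≠ r := by
  rintro rfl
  have h1 := hN.a_lt 0 p (by omega) hpm
  have h2 := hr (a 0)
  have h3 := hx.1
  omega

/-- ENTRY: a vertex of the window at a low level has a neighbour outside the zone -/
theorem entry [Fintype V] (hinj : Function.Injective pos) (hN : Nest pos G m a b)
    (hcr : ∀ z w x y, G.Adj z w → G.Adj x y → Cr pos z w x y → s(x, y) ∈ A s(z, w) ∨ s(z, w) ∈ A s(x, y))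
    {L : List (V → ℕ)} (hL : Const m a b L) {lam : V → ℕ} {r : V}
    (hlam : IsDist (Arc pos G A L) r lam) (hcl : ∀ j ≤ m, lam (a j) = lam (a 0) ∧ lam (b j) = lam (b 0))
    (hr : ∀ x, pos r ≤ pos x) {p0 q0 p q : ℕ} (hp0 : 1 ≤ p0) (hpp : p0 ≤ p) (hpq : p ≤ q) (hqq : q ≤ q0)
    (hq0 : q0 ≤ m) (hH : HH pos G a b L p0 q0)
    (hB : ∀ e ∈ Full pos G a b L p0 q0, ∀ e' ∈ A e, ∀ x ∈ e', ¬ Zone pos a b p q x) :
    ∀ n x, lam x = n → Zone pos a b p q x → lam x < lev a b lam →
      lam x + 1 = lev a b lam ∧ ∃ w, G.Adj x w ∧ ¬ Zone pos a b p q w := by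
  intro n
  induction n using Nat.strong_induction_on with
  | _ n ih =>
    intro x hxn hx hlt
    have hx0 : Zone pos a b p0 q0 x := hx.mono hN hpp (by omega) hqq hq0
    have hxr : x ≠ r := root_not_zone hN hr (by omega) (by omega) hx
    obtain ⟨z, harc, hzx⟩ := hlam.pred x hxr
    have hz : ¬ Zone pos a b p q z := by
      intro hz
      have := (ih (lam z) (by omega) z rfl hz (by omega)).1
      omega
    -- `x` is no end of a chord
    have hxa : ∀ j ≤ m, pos x ≠ pos (a j) ∧ pos x ≠ pos (b j) := by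
      intro j hj
      obtain ⟨h1, h2⟩ := hcl j hj
      refine ⟨fun h => ?_, fun h => ?_⟩
      · rw [hinj h, h1] at hlt
        simp only [lev] at hlt
        omega
      · rw [hinj h, h2] at hlt
        simp only [lev] at hlt
        omega
    have hxp : Btw pos (a p) (b p) x := by
      obtain ⟨h1, h2⟩ := hxa p (by omega)
      simp only [Zone] at hx
      simp only [Btw]
      omega
    have hxq : Out pos (a q) (b q) x := by
      obtain ⟨h1, h2⟩ := hxa q (by omega)
      have h3 := hN.ab q (by omega)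
      simp only [Zone] at hx
      simp only [Out]
      omega
    -- the separating chord
    have hsep : ∃ j, p ≤ j ∧ j ≤ q ∧ ((Out pos (a j) (b j) z ∧ Btw pos (a j) (b j) x ∧ ∀ y, Out pos (a j) (b j) y →
          ¬ Zone pos a b p q y) ∨ (Btw pos (a j) (b j) z ∧ Out pos (a j) (b j) x ∧ ∀ y, Btw pos (a j) (b j) y →
          ¬ Zone pos a b p q y)) := by
      rcases not_zone hN (by omega) (by omega) hz with h | h
      · exact ⟨p, le_refl _, hpq, Or.inl ⟨h, hxp, fun y hy => Out.not_zone hN (by omega) hy⟩⟩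
      · exact ⟨q, hpq, le_refl _, Or.inr ⟨h, hxq, fun y hy => Btw.not_zone hN (by omega) hy⟩⟩
    obtain ⟨j, hpj, hjq, hj⟩ := hsep
    have hjm : j ≤ m := by omega
    have hHx : ∀ y, G.Adj x y → ¬ ∃ mu ∈ L, mu x < lev a b mu ∨ mu y < lev a b mu := by
      rintro y hy ⟨mu, hmu, h⟩
      obtain ⟨h1, h2⟩ := hH x hx0 mu hmu
      have h3 := h2 y hy
      omega
    rcases harc with hadj | ⟨w, y, hzw, hxy, hc, hkept⟩
    · exfalso
      have hcz : Cr pos z x (a j) (b j) := by
        refine Cr.symm ?_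
        rcases hj with ⟨h1, h2, -⟩ | ⟨h1, h2, -⟩
        · exact Or.inr ⟨h1, h2⟩
        · exact Or.inl ⟨h1, h2⟩
      rcases rung_step hN hL hlam hcl hadj hjm hcz with h | ⟨mu, hmu, h⟩
      · omega
      · exact hHx z hadj.symm ⟨mu, hmu, h.symm⟩
    · by_cases hf : Cr pos (a j) (b j) z w
      · exfalso
        rcases rung_step hN hL hlam hcl hzw hjm hf.symm with h | h
        · omega
        · have hfull := full_of hN hq0 hH hzw (hpp.trans hpj) (hjq.trans hqq) hf.symm h
          have hpay := kept_paid hcr hH hzw hxy hc hx0 h hkept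
          exact hB _ hfull _ hpay x (Sym2.mem_mk_left x y) hx
      · have hy : ¬ Zone pos a b p q y ∧ Cr pos (a j) (b j) x y := by
          rcases hj with ⟨h1, h2, h3⟩ | ⟨h1, h2, h3⟩
          · have h4 := sep_out h1 h2 hc hf
            exact ⟨h3 y h4, Or.inl ⟨h2, h4⟩⟩
          · have h4 := sep_in h1 h2 hc hf
            exact ⟨h3 y h4, Or.inr ⟨h2, h4⟩⟩
        refine ⟨?_, y, hxy, hy.1⟩
        rcases rung_step hN hL hlam hcl hxy hjm hy.2.symm with h | h
        · omega
        · exact absurd h (hHx y hxy)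

/-- NEW EDGE -/
theorem new_edge [Fintype V] (hN : Nest pos G m a b)
    (hcr : ∀ z w x y, G.Adj z w → G.Adj x y → Cr pos z w x y → s(x, y) ∈ A s(z, w) ∨ s(z, w) ∈ A s(x, y))
    {L : List (V → ℕ)} {lam : V → ℕ} {r : V}
    (hlam : IsDist (Arc pos G A L) r lam)
    (hr : ∀ x, pos r ≤ pos x) {p0 q0 p1 q1 p q : ℕ} (hp0 : 1 ≤ p0) (h01 : p0 ≤ p1) (h1p : p1 ≤ p)
    (hq1 : q ≤ q1) (h10 : q1 ≤ q0) (hq0 : q0 ≤ m) (hH0 : HH pos G a b L p0 q0)
    (hB : ∀ e ∈ Full pos G a b L p0 q0, ∀ e' ∈ A e, ∀ x ∈ e', ¬ Zone pos a b p1 q1 x)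
    (hH : HH pos G a b (lam :: L) p q) {j : ℕ} (hpj : p < j) (hjq : j < q) {c : V} (hcj : c = a j ∨ c = b j)
    (hlc : lam c = lev a b lam) (hnf : ∀ w, G.Adj c w → Zone pos a b p q w) :
    ∃ e ∈ Full pos G a b (lam :: L) p q, e ∉ Full pos G a b L p0 q0 := by
  have hjm : j ≤ m := by omega
  have hcp : Btw pos (a p) (b p) c := by
    have h1 := hN.a_lt p j hpj hjm
    have h2 := hN.b_lt p j hpj hjm
    have h3 := hN.ab j hjm
    rcases hcj with rfl | rfl
    · left; omega
    · left; omega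
  have hcq : Out pos (a q) (b q) c := by
    have h1 := hN.a_lt j q hjq (by omega)
    have h2 := hN.b_lt j q hjq (by omega)
    have h3 := hN.ab q (by omega)
    rcases hcj with rfl | rfl
    · left; omega
    · right; omega
  have hcz : Zone pos a b p q c := by
    simp only [Btw] at hcp
    simp only [Out] at hcq
    have h3 := hN.ab p (by omega)
    simp only [Zone]
    omega
  have hcr' : c ≠ r := root_not_zone hN hr (by omega) (by omega) hcz
  obtain ⟨z, harc, hzc⟩ := hlam.pred c hcr'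
  have hzlt : lam z < lev a b lam := by omega
  have hz : ¬ Zone pos a b p q z := by
    intro h
    have := (hH z h lam List.mem_cons_self).1
    omega
  rcases harc with hadj | ⟨w, y, hzw, hcy, hc, hkept⟩
  · exact absurd (hnf z hadj.symm) hz
  have hw : ¬ Zone pos a b p q w := by
    intro h
    have := (hH w h lam List.mem_cons_self).2 z hzw.symm
    omega
  have hy := hnf y hcy
  refine ⟨s(z, w), ?_, ?_⟩
  · rw [mem_full]
    rcases not_zone hN (by omega) (by omega) hz with h1 | h1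
    · rcases not_zone hN (by omega) (by omega) hw with h2 | h2
      · exfalso
        have hncr : ¬ Cr pos (a p) (b p) z w := by
          simp only [Out] at h1 h2
          simp only [Cr, Btw, Out]
          omega
        exact Out.not_zone hN (by omega) (sep_out h1 hcp hc hncr) hy
      · exact ⟨z, w, rfl, hzw, h1, h2, lam, List.mem_cons_self, Or.inl hzlt⟩
    · rcases not_zone hN (by omega) (by omega) hw with h2 | h2
      · exact ⟨w, z, Sym2.eq_swap, hzw.symm, h2, h1, lam, List.mem_cons_self, Or.inr hzlt⟩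
      · exfalso
        have hncr : ¬ Cr pos (a q) (b q) z w := by
          simp only [Btw] at h1 h2
          simp only [Cr, Btw, Out]
          omega
        exact Btw.not_zone hN (by omega) (sep_in h1 hcq hc hncr) hy
  · intro hmem
    have hmem' := hmem
    rw [mem_full] at hmem'
    obtain ⟨z', w', heq, -, -, -, mu, hmu, hup⟩ := hmem'
    have hup' : ∃ mu ∈ L, mu z < lev a b mu ∨ mu w < lev a b mu := by
      refine ⟨mu, hmu, ?_⟩
      rw [Sym2.eq_iff] at heq
      rcases heq with ⟨rfl, rfl⟩ | ⟨rfl, rfl⟩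
      · exact hup
      · exact hup.symm
    have hc0 : Zone pos a b p0 q0 c := hcz.mono hN (by omega) (by omega) (by omega) hq0
    have hpay := kept_paid hcr hH0 hzw hcy hc hc0 hup' hkept
    exact hB _ hmem _ hpay c (Sym2.mem_mk_left c y) (hcz.mono hN h1p (by omega) hq1 (by omega))

end Pool.Agent.Lib_MP_f04076
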