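import Pool.Agent.Lib_MP_f04076.Basic

set_option autoImplicit false

open Finset

namespace Pool.Agent.Lib_MP_f04076

variable {V : Type} {pos : V → ℕ} {G : SimpleGraph V} {A : Sym2 V → Finset (Sym2 V)} {k m : ℕ} {a b : ℕ → V}

namespace Nest

theorem a_le (hN : Nest pos G m a b) {i j : ℕ} (hij : i ≤ j) (hj : j ≤ m) : pos (a i) ≤ pos (a j) := by
  rcases Nat.lt_or_ge i j with h | h
  · exact (hN.a_lt i j h hj).le
  · have : i = j := le_antisymm hij h
    rw [this]

theorem b_le (hN : Nest pos G m a b) {i j : ℕ} (hij : i ≤ j) (hj : j ≤ m) : pos (b j) ≤ pos (b i) := by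
  rcases Nat.lt_or_ge i j with h | h
  · exact (hN.b_lt i j h hj).le
  · have : i = j := le_antisymm hij h
    rw [this]

theorem pair_inj (hN : Nest pos G m a b) {i j : ℕ} (hi : i ≤ m) (hj : j ≤ m)
    (h : s(a i, b i) = s(a j, b j)) : i = j := by
  by_contra hne
  have hab := hN.ab i hi
  have hab' := hN.ab j hj
  rw [Sym2.eq_iff] at h
  rcases Nat.lt_or_gt_of_ne hne with hlt | hlt
  · have h1 := hN.a_lt i j hlt hj
    rcases h with ⟨h2, -⟩ | ⟨h2, h3⟩
    · rw [h2] at h1
      exact lt_irrefl _ h1
    · rw [h2] at h1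
      omega
  · have h1 := hN.a_lt j i hlt hi
    rcases h with ⟨h2, -⟩ | ⟨h2, h3⟩
    · rw [h2] at h1
      exact lt_irrefl _ h1
    · rw [← h3] at h1
      have h4 := hN.ab i hi
      omega

/-- each edge pays for at most `k` chords of the nest -/
theorem pays_le (hN : Nest pos G m a b) (hA : ∀ e, (A e).card ≤ k) (J : Finset ℕ) (hJ : ∀ j ∈ J, j ≤ m)
    (e : Sym2 V) [DecidablePred fun j => s(a j, b j) ∈ A e] :
    (J.filter fun j => s(a j, b j) ∈ A e).card ≤ k := by
  refine le_trans (Finset.card_le_card_of_injOn (fun j => s(a j, b j)) ?_ ?_) (hA e)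
  · intro j hj
    have hj' := (Finset.mem_filter.1 (Finset.mem_coe.1 hj)).2
    exact Finset.mem_coe.2 hj'
  · intro i hi j hj hij
    have hi' := (Finset.mem_filter.1 (Finset.mem_coe.1 hi)).1
    have hj' := (Finset.mem_filter.1 (Finset.mem_coe.1 hj)).1
    exact hN.pair_inj (hJ i hi') (hJ j hj') hij

end Nest

/-- selection of a window whose zone avoids given vertices -/
theorem select (hN : Nest pos G m a b) (Bad : Finset V) (B l p : ℕ) (hB : Bad.card ≤ B)
    (hm : p + (B + 1) * (l + 1) ≤ m + 1) :
    ∃ p', p ≤ p' ∧ p' + l < p + (B + 1) * (l + 1) ∧ ∀ x ∈ Bad, ¬ Zone pos a b p' (p' + l) x := by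
  classical
  by_contra hcon
  push Not at hcon
  have hwin : ∀ i, i < B + 1 → p + i * (l + 1) + l < p + (B + 1) * (l + 1) := by
    intro i hi
    have : (i + 1) * (l + 1) ≤ (B + 1) * (l + 1) := Nat.mul_le_mul_right _ hi
    nlinarith
  have hex : ∀ i : Fin (B + 1), ∃ x ∈ Bad, Zone pos a b (p + i * (l + 1)) (p + i * (l + 1) + l) x := by
    intro i
    exact hcon _ (Nat.le_add_right _ _) (hwin i i.2)
  choose f hf hz using hex
  have hinj : Function.Injective f := by
    intro i j hij
    by_contra hne
    wlog hlt : i < j generalizing i j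
    · exact this hij.symm (Ne.symm hne) (lt_of_le_of_ne (not_lt.1 hlt) (Ne.symm hne))
    have h1 := hz i
    have h2 := hz j
    rw [hij] at h1
    obtain ⟨-, -, h3⟩ := h1
    obtain ⟨h4, h5, -⟩ := h2
    have hlt' : p + (i : ℕ) * (l + 1) + l < p + (j : ℕ) * (l + 1) := by
      have : ((i : ℕ) + 1) * (l + 1) ≤ (j : ℕ) * (l + 1) := Nat.mul_le_mul_right _ hlt
      nlinarith
    have hjm : p + (j : ℕ) * (l + 1) ≤ m := by
      have := hwin j j.2
      omega
    have h6 := hN.a_lt _ _ hlt' hjm
    have h7 := hN.b_lt _ _ hlt' hjm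
    apply h3
    constructor
    · omega
    · omega
  have hc : Fintype.card (Fin (B + 1)) ≤ Bad.card := by
    rw [← Finset.card_univ]
    refine Finset.card_le_card_of_injOn f ?_ hinj.injOn
    intro i _
    exact Finset.mem_coe.2 (hf i)
  rw [Fintype.card_fin] at hc
  omega

theorem cr_nest_out {a' b' x w : V} (hx : Btw pos a' b' x) (hw : Out pos a' b' w) : Cr pos a' b' x w :=
  Or.inl ⟨hx, hw⟩

theorem cr_nest_in {a' b' x w : V} (hx : Out pos a' b' x) (hw : Btw pos a' b' w) : Cr pos a' b' x w :=
  Or.inr ⟨hx, hw⟩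

/-- few vertices in the middle of a window have a neighbour outside the zone of the window -/
theorem few (hN : Nest pos G m a b)
    (hA : ∀ e, (A e).card ≤ k)
    (hcr : ∀ z w x y, G.Adj z w → G.Adj x y → Cr pos z w x y → s(x, y) ∈ A s(z, w) ∨ s(z, w) ∈ A s(x, y))
    (p h : ℕ) (hh : 2 * k ≤ h) (h1 : 1 ≤ h) (hm : p + 4 * h ≤ m) (S : Finset V)
    (hS : ∀ x ∈ S, Zone pos a b (p + h) (p + 3 * h) x ∧ ∃ w, G.Adj x w ∧ ¬ Zone pos a b p (p + 4 * h) w) :
    S.card ≤ 20 * k := by
  classical
  have hex : ∀ x, ∃ w, x ∈ S → G.Adj x w ∧ ¬ Zone pos a b p (p + 4 * h) w := by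
    intro x
    by_cases hx : x ∈ S
    · obtain ⟨w, hw⟩ := (hS x hx).2
      exact ⟨w, fun _ => hw⟩
    · exact ⟨x, fun hx' => absurd hx' hx⟩
  choose w hw using hex
  have key := dcount S (Finset.Icc p (p + 4 * h)) (fun x j => s(a j, b j) ∈ A s(x, w x))
    (fun x j => s(x, w x) ∈ A s(a j, b j)) h k (2 * k) ?_ ?_ ?_
  · rw [Nat.card_Icc] at key
    have hc : p + 4 * h + 1 - p = 4 * h + 1 := by omega
    rw [hc] at key
    -- S.card * h ≤ k * S.card + 2 k (4h+1)
    by_contra hcon
    push Not at hcon
    have h2 : k * S.card * 2 ≤ h * S.card := by nlinarith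
    have h3 : 2 * k * (4 * h + 1) * 2 ≤ 20 * k * h := by nlinarith
    have h4 : (20 * k + 1) * h ≤ S.card * h := Nat.mul_le_mul_right _ hcon
    nlinarith
  · intro x hx
    obtain ⟨⟨hz1, hz2, hz3⟩, -⟩ := hS x hx
    obtain ⟨hadj, hnz⟩ := hw x hx
    have hcross : ∀ j, j ≤ m → Cr pos (a j) (b j) x (w x) →
        s(a j, b j) ∈ A s(x, w x) ∨ s(x, w x) ∈ A s(a j, b j) := by
      intro j hj hc
      exact hcr x (w x) (a j) (b j) hadj (hN.adj j hj) hc.symm
    have hab := hN.ab p (by omega)
    have hcases : Out pos (a p) (b p) (w x) ∨ Btw pos (a (p + 4 * h)) (b (p + 4 * h)) (w x) := by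
      simp only [Zone] at hnz
      simp only [Out, Btw]
      omega
    rcases hcases with hout | hin
    · -- chords p, ..., p + h - 1
      have hsub : Finset.Ico p (p + h) ⊆ (Finset.Icc p (p + 4 * h)).filter
          (fun j => s(a j, b j) ∈ A s(x, w x) ∨ s(x, w x) ∈ A s(a j, b j)) := by
        intro j hj
        rw [Finset.mem_Ico] at hj
        rw [Finset.mem_filter, Finset.mem_Icc]
        refine ⟨by omega, hcross j (by omega) ?_⟩
        have e1 := hN.a_lt j (p + h) (by omega) (by omega)
        have e2 := hN.b_lt j (p + h) (by omega) (by omega)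
        have e3 := hN.a_le hj.1 (by omega)
        have e4 := hN.b_le hj.1 (by omega)
        have e5 := hN.ab j (by omega)
        apply cr_nest_out
        · left
          omega
        · simp only [Out] at hout ⊢
          omega
      have := Finset.card_le_card hsub
      rw [Nat.card_Ico] at this
      omega
    · have hsub : Finset.Ioc (p + 3 * h) (p + 4 * h) ⊆ (Finset.Icc p (p + 4 * h)).filter
          (fun j => s(a j, b j) ∈ A s(x, w x) ∨ s(x, w x) ∈ A s(a j, b j)) := by
        intro j hj
        rw [Finset.mem_Ioc] at hj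
        rw [Finset.mem_filter, Finset.mem_Icc]
        refine ⟨by omega, hcross j (by omega) ?_⟩
        have e1 := hN.a_lt (p + 3 * h) j (by omega) (by omega)
        have e2 := hN.b_lt (p + 3 * h) j (by omega) (by omega)
        have e3 := hN.a_le hj.2 (by omega)
        have e4 := hN.b_le hj.2 (by omega)
        have e5 := hN.ab j (by omega)
        have e6 := hN.ab (p + 4 * h) (by omega)
        apply cr_nest_in
        · simp only [Out]
          omega
        · simp only [Btw] at hin ⊢
          omega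
      have := Finset.card_le_card hsub
      rw [Nat.card_Ioc] at this
      omega
  · intro x hx
    apply hN.pays_le hA
    intro j hj
    rw [Finset.mem_Icc] at hj
    omega
  · intro j hj
    have e1 : (S.filter fun x => s(x, w x) ∈ A s(a j, b j)).card ≤
        2 * ((S.filter fun x => s(x, w x) ∈ A s(a j, b j)).image fun x => s(x, w x)).card := by
      apply Finset.card_le_mul_card_image
      intro e he
      induction e using Sym2.ind with
      | _ u v =>
        refine le_trans (Finset.card_le_card (t := {u, v}) ?_) Finset.card_le_two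
        intro x hx
        rw [Finset.mem_filter] at hx
        have hx2 := hx.2
        rw [Sym2.eq_iff] at hx2
        rw [Finset.mem_insert, Finset.mem_singleton]
        rcases hx2 with h | h
        · exact Or.inl h.1
        · exact Or.inr h.1
    have e2 : ((S.filter fun x => s(x, w x) ∈ A s(a j, b j)).image fun x => s(x, w x)).card ≤ k := by
      refine le_trans (Finset.card_le_card ?_) (hA s(a j, b j))
      intro e he
      rw [Finset.mem_image] at he
      obtain ⟨x, hx, rfl⟩ := he
      exact (Finset.mem_filter.1 hx).2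
    omega

/-- at most `k` edges cross all chords of a long window -/
theorem full_card [Fintype V] (hN : Nest pos G m a b)
    (hA : ∀ e, (A e).card ≤ k)
    (hcr : ∀ z w x y, G.Adj z w → G.Adj x y → Cr pos z w x y → s(x, y) ∈ A s(z, w) ∨ s(z, w) ∈ A s(x, y))
    (L : List (V → ℕ)) (p q : ℕ) (hq : q ≤ m) (hpq : k * (k + 1) + p ≤ q) :
    (Full pos G a b L p q).card ≤ k := by
  classical
  by_contra hcon
  push Not at hcon
  obtain ⟨S, hSF, hSc⟩ := Finset.exists_subset_card_eq (s := Full pos G a b L p q) (n := k + 1) hcon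
  have key := dcount S (Finset.Icc p q) (fun e j => s(a j, b j) ∈ A e)
    (fun e j => e ∈ A s(a j, b j)) (q + 1 - p) k k ?_ ?_ ?_
  · rw [hSc, Nat.card_Icc] at key
    have e1 : (k + 1) * (q + 1 - p) = k * (q + 1 - p) + (q + 1 - p) := by ring
    rw [e1] at key
    have : q + 1 - p ≤ k * (k + 1) := by omega
    omega
  · intro e he
    have he' := hSF he
    rw [mem_full] at he'
    obtain ⟨z, w, rfl, hadj, hz, hw, -⟩ := he'
    rw [Finset.filter_true_of_mem, Nat.card_Icc]
    intro j hj
    rw [Finset.mem_Icc] at hj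
    refine hcr z w (a j) (b j) hadj (hN.adj j (by omega)) ?_
    have e1 := hN.a_le hj.1 (by omega)
    have e2 := hN.b_le hj.1 (by omega)
    have e3 := hN.a_le hj.2 hq
    have e4 := hN.b_le hj.2 hq
    have e5 := hN.ab j (by omega)
    have e6 := hN.ab p (by omega)
    have e7 := hN.ab q (by omega)
    refine Cr.symm (Or.inr ⟨?_, ?_⟩)
    · simp only [Out] at hz ⊢
      omega
    · simp only [Btw] at hw ⊢
      omega
  · intro e _
    apply hN.pays_le hA
    intro j hj
    rw [Finset.mem_Icc] at hj
    omega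
  · intro j _
    refine le_trans (Finset.card_le_card ?_) (hA s(a j, b j))
    intro e he
    exact (Finset.mem_filter.1 he).2

end Pool.Agent.Lib_MP_f04076
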