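import Pool.Agent.Lib_MP_f04076.Step

set_option autoImplicit false

open Finset

namespace Pool.Agent.Lib_MP_f04076

variable {V : Type}

/-- lexicographic order by the functions of the list, then by position -/
def Lt (pos : V → ℕ) : List (V → ℕ) → V → V → Prop
  | [], x, y => pos x < pos y
  | mu :: L, x, y => mu x < mu y ∨ (mu x = mu y ∧ Lt pos L x y)

theorem Lt.irrefl (pos : V → ℕ) (L : List (V → ℕ)) (x : V) : ¬ Lt pos L x x := by
  induction L with
  | nil => simp [Lt]
  | cons mu L ih => simp [Lt, ih]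

theorem Lt.trans {pos : V → ℕ} {L : List (V → ℕ)} {x y z : V} (h1 : Lt pos L x y) (h2 : Lt pos L y z) :
    Lt pos L x z := by
  induction L with
  | nil =>
    simp only [Lt] at *
    omega
  | cons mu L ih =>
    simp only [Lt] at *
    rcases h1 with h1 | ⟨h1, h1'⟩
    · rcases h2 with h2 | ⟨h2, -⟩
      · left; omega
      · left; omega
    · rcases h2 with h2 | ⟨h2, h2'⟩
      · left; omega
      · exact Or.inr ⟨by omega, ih h1' h2'⟩

theorem Lt.total {pos : V → ℕ} (hinj : Function.Injective pos) (L : List (V → ℕ)) {x y : V} (h : x ≠ y) :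
    Lt pos L x y ∨ Lt pos L y x := by
  induction L with
  | nil =>
    simp only [Lt]
    have : pos x ≠ pos y := fun h' => h (hinj h')
    omega
  | cons mu L ih =>
    simp only [Lt]
    rcases Nat.lt_trichotomy (mu x) (mu y) with h1 | h1 | h1
    · exact Or.inl (Or.inl h1)
    · rcases ih with h2 | h2
      · exact Or.inl (Or.inr ⟨h1, h2⟩)
      · exact Or.inr (Or.inr ⟨h1.symm, h2⟩)
    · exact Or.inr (Or.inl h1)

theorem exists_rank [Fintype V] {pos : V → ℕ} (hinj : Function.Injective pos) (L : List (V → ℕ)) :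
    ∃ sig : V → ℕ, Function.Injective sig ∧ ∀ x y, sig x < sig y ↔ Lt pos L x y := by
  classical
  set sig : V → ℕ := fun x => (univ.filter fun y => Lt pos L y x).card with hsig
  have h1 : ∀ x y, Lt pos L x y → sig x < sig y := by
    intro x y hxy
    apply Finset.card_lt_card
    rw [Finset.ssubset_iff_of_subset]
    · refine ⟨x, ?_, ?_⟩
      · rw [Finset.mem_filter]; exact ⟨Finset.mem_univ _, hxy⟩
      · rw [Finset.mem_filter]; exact fun h => Lt.irrefl pos L x h.2
    · intro z hz
      rw [Finset.mem_filter] at hz ⊢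
      exact ⟨Finset.mem_univ _, hz.2.trans hxy⟩
  refine ⟨sig, ?_, ?_⟩
  · intro x y hxy
    by_contra hne
    rcases Lt.total hinj L hne with h | h
    · have := h1 x y h; omega
    · have := h1 y x h; omega
  · intro x y
    refine ⟨fun h => ?_, h1 x y⟩
    have hne : x ≠ y := by
      rintro rfl
      exact lt_irrefl _ h
    rcases Lt.total hinj L hne with h2 | h2
    · exact h2
    · have := h1 y x h2; omega

/-- code of the difference vector -/
def code : List (V → ℕ) → V → V → ℕ
  | [], _, _ => 0
  | mu :: L, u, v => 3 * code L u v + (mu v + 1 - mu u)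

/-- Lipschitz on the pair -/
def Lip (L : List (V → ℕ)) (u v : V) : Prop := ∀ mu ∈ L, mu v ≤ mu u + 1 ∧ mu u ≤ mu v + 1

theorem code_lt {L : List (V → ℕ)} {u v : V} (h : Lip L u v) : code L u v < 3 ^ L.length := by
  induction L with
  | nil => simp [code]
  | cons mu L ih =>
    have h1 := h mu List.mem_cons_self
    have h2 := ih fun nu hnu => h nu (List.mem_cons_of_mem _ hnu)
    simp only [code, List.length_cons, pow_succ]
    omega

theorem code_inj {L : List (V → ℕ)} {u v u' v' : V} (h : Lip L u v) (h' : Lip L u' v')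
    (he : code L u v = code L u' v') : ∀ mu ∈ L, mu v + mu u' = mu v' + mu u := by
  induction L with
  | nil => intro mu hmu; exact absurd hmu List.not_mem_nil
  | cons nu L ih =>
    have h1 := h nu List.mem_cons_self
    have h2 := h' nu List.mem_cons_self
    simp only [code] at he
    have h3 : code L u v = code L u' v' := by omega
    intro mu hmu
    rw [List.mem_cons] at hmu
    rcases hmu with rfl | hmu
    · omega
    · exact ih (fun nu hnu => h nu (List.mem_cons_of_mem _ hnu)) (fun nu hnu => h' nu (List.mem_cons_of_mem _ hnu))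
        h3 mu hmu

theorem lex_cell {pos : V → ℕ} {L : List (V → ℕ)} {u1 v1 u2 v2 : V}
    (h : ∀ mu ∈ L, mu v1 + mu u2 = mu v2 + mu u1) (hu : Lt pos L u1 u2) (hv : Lt pos L v2 v1) :
    (∀ mu ∈ L, mu u1 = mu u2 ∧ mu v1 = mu v2) ∧ pos u1 < pos u2 ∧ pos v2 < pos v1 := by
  induction L with
  | nil =>
    refine ⟨fun mu hmu => absurd hmu List.not_mem_nil, hu, hv⟩
  | cons nu L ih =>
    have h1 := h nu List.mem_cons_self
    simp only [Lt] at hu hv
    have hu' : nu u1 = nu u2 ∧ Lt pos L u1 u2 := by
      rcases hu with hu | hu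
      · rcases hv with hv | ⟨hv, -⟩
        · omega
        · omega
      · exact hu
    have hv' : nu v2 = nu v1 ∧ Lt pos L v2 v1 := by
      rcases hv with hv | hv
      · omega
      · exact hv
    obtain ⟨h2, h3⟩ := ih (fun mu hmu => h mu (List.mem_cons_of_mem _ hmu)) hu'.2 hv'.2
    refine ⟨?_, h3⟩
    intro mu hmu
    rw [List.mem_cons] at hmu
    rcases hmu with rfl | hmu
    · exact ⟨hu'.1, hv'.1.symm⟩
    · exact h2 mu hmu

open Classical in
/-- class of an edge -/
noncomputable def cls (pos : V → ℕ) (L : List (V → ℕ)) (u v : V) : ℕ :=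
  2 * code L u v + (if pos u < pos v then 1 else 0)

theorem cls_lt {pos : V → ℕ} {L : List (V → ℕ)} {u v : V} (h : Lip L u v) : cls pos L u v < 2 * 3 ^ L.length := by
  have := code_lt h
  simp only [cls]
  split_ifs <;> omega

theorem cls_inj {pos : V → ℕ} {L : List (V → ℕ)} {u v u' v' : V} (h : Lip L u v) (h' : Lip L u' v')
    (he : cls pos L u v = cls pos L u' v') :
    (∀ mu ∈ L, mu v + mu u' = mu v' + mu u) ∧ (pos u < pos v ↔ pos u' < pos v') := by
  simp only [cls] at he
  constructor
  · apply code_inj h h'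
    split_ifs at he <;> omega
  · split_ifs at he with h1 h2 h2
    · exact ⟨fun _ => h2, fun _ => h1⟩
    · omega
    · omega
    · exact ⟨fun h => absurd h h1, fun h => absurd h h2⟩

/-- a chain of `n` further nested edges of the same class inside `uv` -/
def Ch (pos : V → ℕ) (G : SimpleGraph V) (L : List (V → ℕ)) : ℕ → V → V → Prop
  | 0, _, _ => True
  | n + 1, u, v => ∃ x y, G.Adj x y ∧ Lt pos L u x ∧ Lt pos L x y ∧ Lt pos L y v ∧
      cls pos L x y = cls pos L u v ∧ Ch pos G L n x y

theorem ch_seq {pos : V → ℕ} {G : SimpleGraph V} {L : List (V → ℕ)} (c : ℕ) :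
    ∀ n u v, G.Adj u v → cls pos L u v = c → Ch pos G L n u v →
    ∃ U W : ℕ → V, U 0 = u ∧ W 0 = v ∧ (∀ j ≤ n, G.Adj (U j) (W j) ∧ cls pos L (U j) (W j) = c) ∧
      ∀ j < n, Lt pos L (U j) (U (j + 1)) ∧ Lt pos L (W (j + 1)) (W j) := by
  intro n
  induction n with
  | zero =>
    intro u v h1 h2 _
    refine ⟨fun _ => u, fun _ => v, rfl, rfl, fun _ _ => ⟨h1, h2⟩, fun j hj => absurd hj (Nat.not_lt_zero _)⟩
  | succ n ih =>
    intro u v h1 h2 hch
    obtain ⟨x, y, hxy, hux, -, hyv, hcl, hch'⟩ := hch
    obtain ⟨U, W, hU, hW, h3, h4⟩ := ih x y hxy (hcl.trans h2) hch'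
    refine ⟨fun j => Nat.casesOn j u U, fun j => Nat.casesOn j v W, rfl, rfl, ?_, ?_⟩
    · intro j hj
      rcases j with _ | j
      · exact ⟨h1, h2⟩
      · exact h3 j (by omega)
    · intro j hj
      rcases j with _ | j
      · simp only [hU, hW]
        exact ⟨hux, hyv⟩
      · exact h4 j (by omega)

theorem ch_nest {pos : V → ℕ} {G : SimpleGraph V} {L : List (V → ℕ)} (hinj : Function.Injective pos)
    (hlip : ∀ u v, G.Adj u v → Lip L u v) {n : ℕ} {u v : V} (huv : G.Adj u v)
    (hch : Ch pos G L n u v) : ∃ a b : ℕ → V, Nest pos G n a b ∧ Const n a b L := by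
  obtain ⟨U, W, hU, hW, h1, h2⟩ := ch_seq _ n u v huv rfl hch
  have hcell : ∀ j < n, (∀ mu ∈ L, mu (U j) = mu (U (j + 1)) ∧ mu (W j) = mu (W (j + 1))) ∧
      pos (U j) < pos (U (j + 1)) ∧ pos (W (j + 1)) < pos (W j) := by
    intro j hj
    obtain ⟨e1, e2⟩ := h2 j hj
    obtain ⟨e3, e4⟩ := h1 j (by omega)
    obtain ⟨e5, e6⟩ := h1 (j + 1) (by omega)
    exact lex_cell (cls_inj (hlip _ _ e3) (hlip _ _ e5) (e4.trans e6.symm)).1 e1 e2
  have hUmono : ∀ i j, i < j → j ≤ n → pos (U i) < pos (U j) := by
    intro i j hij hj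
    induction j with
    | zero => omega
    | succ j ih =>
      have := (hcell j (by omega)).2.1
      rcases Nat.lt_or_ge i j with h | h
      · exact (ih h (by omega)).trans this
      · have : i = j := by omega
        subst this
        assumption
  have hWmono : ∀ i j, i < j → j ≤ n → pos (W j) < pos (W i) := by
    intro i j hij hj
    induction j with
    | zero => omega
    | succ j ih =>
      have := (hcell j (by omega)).2.2
      rcases Nat.lt_or_ge i j with h | h
      · exact this.trans (ih h (by omega))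
      · have : i = j := by omega
        subst this
        assumption
  have hconst : ∀ mu ∈ L, ∀ j ≤ n, mu (U j) = mu (U 0) ∧ mu (W j) = mu (W 0) := by
    intro mu hmu j hj
    induction j with
    | zero => exact ⟨rfl, rfl⟩
    | succ j ih =>
      obtain ⟨e1, e2⟩ := ih (by omega)
      obtain ⟨e3, e4⟩ := (hcell j (by omega)).1 mu hmu
      exact ⟨by omega, by omega⟩
  have hori : ∀ j ≤ n, (pos (U j) < pos (W j) ↔ pos (U 0) < pos (W 0)) := by
    intro j hj
    obtain ⟨e3, e4⟩ := h1 j hj
    obtain ⟨e5, e6⟩ := h1 0 (by omega)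
    exact (cls_inj (hlip _ _ e3) (hlip _ _ e5) (e4.trans e6.symm)).2
  by_cases ho : pos (U 0) < pos (W 0)
  · refine ⟨U, W, ⟨fun j hj => (h1 j hj).1, fun j hj => (hori j hj).2 ho, hUmono, hWmono⟩, hconst⟩
  · refine ⟨fun j => W (n - j), fun j => U (n - j), ⟨?_, ?_, ?_, ?_⟩, ?_⟩
    · intro j hj
      exact (h1 (n - j) (by omega)).1.symm
    · intro j hj
      have e1 : ¬ pos (U (n - j)) < pos (W (n - j)) := fun h => ho ((hori (n - j) (by omega)).1 h)
      have e2 : pos (U (n - j)) ≠ pos (W (n - j)) := fun h => (h1 (n - j) (by omega)).1.ne (hinj h)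
      omega
    · intro i j hij hj
      exact hWmono (n - j) (n - i) (by omega) (by omega)
    · intro i j hij hj
      exact hUmono (n - j) (n - i) (by omega) (by omega)
    · intro mu hmu j hj
      obtain ⟨e1, e2⟩ := hconst mu hmu (n - j) (by omega)
      obtain ⟨e3, e4⟩ := hconst mu hmu (n - 0) (by omega)
      exact ⟨by simp only; omega, by simp only; omega⟩

/-- colouring of a layout whose chains are short -/
theorem colouring [Fintype V] {pos : V → ℕ} {G : SimpleGraph V} {L : List (V → ℕ)}
    (hinj : Function.Injective pos) (hlip : ∀ u v, G.Adj u v → Lip L u v) (M : ℕ) (hM : 0 < M)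
    (hno : ∀ u v, G.Adj u v → Lt pos L u v → ¬ Ch pos G L M u v) :
    ∃ sig : V → ℕ, Function.Injective sig ∧ ∃ c : V → V → Fin (2 * 3 ^ L.length * M),
      (∀ u v, c u v = c v u) ∧ ∀ u v x y, G.Adj u v → G.Adj x y → sig u < sig x → sig x < sig y → sig y < sig v →
        c u v ≠ c x y := by
  classical
  obtain ⟨sig, hs, hlt⟩ := exists_rank hinj L
  have hQ : 0 < 2 * 3 ^ L.length * M := by positivity
  set dep : V → V → ℕ := fun u v => Nat.findGreatest (fun n => Ch pos G L n u v) M with hdep
  set num : V → V → ℕ := fun u v => cls pos L u v * M + dep u v with hnum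
  have hdlt : ∀ u v, G.Adj u v → Lt pos L u v → dep u v < M := by
    intro u v huv h
    have h1 : dep u v ≤ M := Nat.findGreatest_le M
    have h2 : Ch pos G L (dep u v) u v :=
      Nat.findGreatest_spec (P := fun n => Ch pos G L n u v) (Nat.zero_le M) trivial
    rcases Nat.lt_or_ge (dep u v) M with h3 | h3
    · exact h3
    · have h4 : dep u v = M := le_antisymm h1 h3
      rw [h4] at h2
      exact absurd h2 (hno u v huv h)
  have hnlt : ∀ u v, G.Adj u v → Lt pos L u v → num u v < 2 * 3 ^ L.length * M := by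
    intro u v huv h
    have h1 := hdlt u v huv h
    have h2 := cls_lt (pos := pos) (hlip u v huv)
    have h3 : (cls pos L u v + 1) * M ≤ 2 * 3 ^ L.length * M := Nat.mul_le_mul_right _ h2
    simp only [hnum]
    nlinarith
  refine ⟨sig, hs, fun u v => if sig u < sig v then ⟨num u v % (2 * 3 ^ L.length * M), Nat.mod_lt _ hQ⟩ else
    if sig v < sig u then ⟨num v u % (2 * 3 ^ L.length * M), Nat.mod_lt _ hQ⟩ else ⟨0, hQ⟩, ?_, ?_⟩
  · intro u v
    simp only
    by_cases h1 : sig u < sig v
    · have h2 : ¬ sig v < sig u := by omega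
      rw [if_pos h1, if_neg h2, if_pos h1]
    · by_cases h2 : sig v < sig u
      · rw [if_neg h1, if_pos h2, if_pos h2]
      · rw [if_neg h1, if_neg h2, if_neg h2, if_neg h1]
  · intro u v x y huv hxy hux hxy' hyv heq
    have h1 : sig u < sig v := by omega
    simp only at heq
    rw [if_pos h1, if_pos hxy', Fin.mk.injEq] at heq
    have l1 : Lt pos L u x := (hlt _ _).1 hux
    have l2 : Lt pos L x y := (hlt _ _).1 hxy'
    have l3 : Lt pos L y v := (hlt _ _).1 hyv
    have l4 : Lt pos L u v := (hlt _ _).1 h1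
    rw [Nat.mod_eq_of_lt (hnlt u v huv l4), Nat.mod_eq_of_lt (hnlt x y hxy l2)] at heq
    have d1 := hdlt u v huv l4
    have d2 := hdlt x y hxy l2
    have hcl : cls pos L u v = cls pos L x y := by
      have e1 : (cls pos L u v * M + dep u v) / M = cls pos L u v := by
        rw [Nat.add_comm, Nat.add_mul_div_right _ _ hM, Nat.div_eq_of_lt d1, Nat.zero_add]
      have e2 : (cls pos L x y * M + dep x y) / M = cls pos L x y := by
        rw [Nat.add_comm, Nat.add_mul_div_right _ _ hM, Nat.div_eq_of_lt d2, Nat.zero_add]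
      rw [← e1, ← e2]
      exact congrArg (· / M) heq
    have hde : dep u v = dep x y := by
      simp only [hnum, hcl] at heq
      omega
    have hch : Ch pos G L (dep x y) x y :=
      Nat.findGreatest_spec (P := fun n => Ch pos G L n x y) (Nat.zero_le M) trivial
    have hch2 : Ch pos G L (dep x y + 1) u v := ⟨x, y, hxy, l1, l2, l3, hcl.symm, hch⟩
    have := Nat.le_findGreatest (P := fun n => Ch pos G L n u v) (n := M) (by omega : dep x y + 1 ≤ M) hch2
    have h5 : dep x y + 1 ≤ dep u v := this
    omega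

end Pool.Agent.Lib_MP_f04076
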