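import Pool.Agent.Lib_MP_f04076.Layout

set_option autoImplicit false

open Finset

namespace Pool.Agent.Lib_MP_f04076

variable {V : Type}

/-- consecutive vertices -/
def Cons (pos : V → ℕ) : SimpleGraph V where
  Adj u v := u ≠ v ∧ ∀ x, ¬ Btw pos u v x
  symm := ⟨fun u v h => ⟨h.1.symm, fun x hx => h.2 x (by simp only [Btw] at *; omega)⟩⟩
  loopless := ⟨fun u h => h.1 rfl⟩

theorem cons_not_cr {pos : V → ℕ} {u v x y : V} (h : (Cons pos).Adj u v) : ¬ Cr pos u v x y := by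
  intro hc
  rcases hc with hc | hc
  · exact h.2 _ hc.1
  · exact h.2 _ hc.2

theorem reach [Fintype V] {pos : V → ℕ} (hinj : Function.Injective pos) {G : SimpleGraph V}
    (hG : ∀ u v, (Cons pos).Adj u v → G.Adj u v) (A : Sym2 V → Finset (Sym2 V)) (L : List (V → ℕ)) {r : V}
    (hr : ∀ x, pos r ≤ pos x) : ∀ x, Relation.ReflTransGen (Arc pos G A L) r x := by
  classical
  suffices h : ∀ n x, pos x = n → Relation.ReflTransGen (Arc pos G A L) r x from fun x => h _ x rfl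
  intro n
  induction n using Nat.strong_induction_on with
  | _ n ih =>
    intro x hx
    by_cases hxr : x = r
    · subst hxr
      exact Relation.ReflTransGen.refl
    · have h1 : pos r < pos x := lt_of_le_of_ne (hr x) fun h => hxr (hinj h).symm
      obtain ⟨y, hy, hmax⟩ := Finset.exists_max_image (univ.filter fun y => pos y < pos x) pos
        ⟨r, Finset.mem_filter.2 ⟨Finset.mem_univ _, h1⟩⟩
      have hy' := (Finset.mem_filter.1 hy).2
      refine (ih (pos y) (by omega) y rfl).tail (Or.inl (hG _ _ ⟨?_, ?_⟩))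
      · rintro rfl
        exact lt_irrefl _ hy'
      · intro z hz
        have h2 : pos y < pos z ∧ pos z < pos x := by
          simp only [Btw] at hz
          omega
        have := hmax z (Finset.mem_filter.2 ⟨Finset.mem_univ _, h2.2⟩)
        omega

theorem exists_seq {pos : V → ℕ} {G : SimpleGraph V} {A : Sym2 V → Finset (Sym2 V)} {r : V}
    (h : ∀ L x, Relation.ReflTransGen (Arc pos G A L) r x) :
    ∃ Ls : ℕ → List (V → ℕ), Ls 0 = [] ∧
      ∀ t, ∃ lam, IsDist (Arc pos G A (Ls t)) r lam ∧ Ls (t + 1) = lam :: Ls t := by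
  choose f hf using fun L => exists_dist (Arc pos G A L) r (h L)
  refine ⟨fun t => Nat.rec [] (fun _ L => f L :: L) t, rfl, ?_⟩
  intro t
  exact ⟨_, hf _, rfl⟩

theorem seq_props {pos : V → ℕ} {G : SimpleGraph V} {A : Sym2 V → Finset (Sym2 V)} {r : V}
    {Ls : ℕ → List (V → ℕ)} (h0 : Ls 0 = [])
    (hs : ∀ t, ∃ lam, IsDist (Arc pos G A (Ls t)) r lam ∧ Ls (t + 1) = lam :: Ls t) :
    ∀ t, (Ls t).length = t ∧ ∀ u v, G.Adj u v → Lip (Ls t) u v := by
  intro t
  induction t with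
  | zero =>
    rw [h0]
    exact ⟨rfl, fun u v _ mu hmu => absurd hmu List.not_mem_nil⟩
  | succ t ih =>
    obtain ⟨lam, hlam, hLs⟩ := hs t
    rw [hLs]
    refine ⟨by rw [List.length_cons, ih.1], ?_⟩
    intro u v huv mu hmu
    rw [List.mem_cons] at hmu
    rcases hmu with rfl | hmu
    · exact ⟨hlam.step u v (Or.inl huv), hlam.step v u (Or.inl huv.symm)⟩
    · exact ih.2 u v huv mu hmu

/-- the theorem, with the explicit recursive bound -/
theorem main_rec [Fintype V] {pos : V → ℕ} {G : SimpleGraph V} {A : Sym2 V → Finset (Sym2 V)} {k : ℕ}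
    (hinj : Function.Injective pos) (hA : ∀ e, (A e).card ≤ k)
    (hcr : ∀ z w x y, G.Adj z w → G.Adj x y → Cr pos z w x y → s(x, y) ∈ A s(z, w) ∨ s(z, w) ∈ A s(x, y)) :
    ∃ sig : V → ℕ, Function.Injective sig ∧ ∃ c : V → V → Fin (2 * 3 ^ (k + 1) * nestBound k),
      (∀ u v, c u v = c v u) ∧ ∀ u v x y, G.Adj u v → G.Adj x y → sig u < sig x → sig x < sig y → sig y < sig v →
        c u v ≠ c x y := by
  classical
  have hM : 0 < nestBound k := by
    simp only [nestBound]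
    omega
  have hQ : 0 < 2 * 3 ^ (k + 1) * nestBound k := by positivity
  rcases isEmpty_or_nonempty V with hV | hV
  · exact ⟨pos, hinj, fun _ _ => ⟨0, hQ⟩, fun _ _ => rfl, fun u => hV.elim u⟩
  · obtain ⟨r, -, hr⟩ := Finset.exists_min_image (univ : Finset V) pos Finset.univ_nonempty
    have hr' : ∀ x, pos r ≤ pos x := fun x => hr x (Finset.mem_univ _)
    set G' : SimpleGraph V := G ⊔ Cons pos with hG'
    have hcr' : ∀ z w x y, G'.Adj z w → G'.Adj x y → Cr pos z w x y →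
        s(x, y) ∈ A s(z, w) ∨ s(z, w) ∈ A s(x, y) := by
      intro z w x y h1 h2 h3
      rw [hG', SimpleGraph.sup_adj] at h1 h2
      rcases h1 with h1 | h1
      · rcases h2 with h2 | h2
        · exact hcr z w x y h1 h2 h3
        · exact absurd h3.symm (cons_not_cr h2)
      · exact absurd h3 (cons_not_cr h1)
    have hreach : ∀ L x, Relation.ReflTransGen (Arc pos G' A L) r x :=
      fun L => reach hinj (fun u v h => by rw [hG', SimpleGraph.sup_adj]; exact Or.inr h) A L hr'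
    obtain ⟨Ls, h0, hs⟩ := exists_seq hreach
    obtain ⟨hlen, hlip⟩ := seq_props h0 hs (k + 1)
    have hno : ∀ u v, G'.Adj u v → Lt pos (Ls (k + 1)) u v → ¬ Ch pos G' (Ls (k + 1)) (nestBound k) u v := by
      intro u v huv _ hch
      obtain ⟨a, b, hN, hC⟩ := ch_nest hinj hlip huv hch
      exact lt_irrefl _ (nest_bound hinj hN hA hcr' hr' Ls h0 hs hC)
    have hcol := colouring hinj hlip (nestBound k) hM hno
    rw [hlen] at hcol
    obtain ⟨sig, hsig, c, hc1, hc2⟩ := hcol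
    refine ⟨sig, hsig, c, hc1, ?_⟩
    intro u v x y huv hxy
    exact hc2 u v x y (by rw [hG', SimpleGraph.sup_adj]; exact Or.inl huv)
      (by rw [hG', SimpleGraph.sup_adj]; exact Or.inl hxy)

theorem phi_le (k N : ℕ) : phi k N + 1 ≤ 10 ^ 6 * (k + 1) ^ 5 * (N + 1) := by
  have e3 : h3 k N + 1 ≤ 10 * (k + 1) * (N + 1) := by
    simp only [h3]
    nlinarith [Nat.zero_le (k * N)]
  have e2 : h2 k N + 1 ≤ 801 * (k + 1) ^ 2 * (N + 1) := by
    have h : h2 k N + 1 ≤ 20 * (k + 1) * (40 * (k + 1) * (N + 1)) + 1 := by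
      simp only [h2]
      apply Nat.add_le_add_right
      apply Nat.mul_le_mul
      · omega
      · nlinarith
    have h' : 1 ≤ (k + 1) ^ 2 * (N + 1) := Nat.succ_le_of_lt (by positivity)
    nlinarith
  have e1 : h1 k N + 1 ≤ 64081 * (k + 1) ^ 3 * (N + 1) := by
    have h : h1 k N + 1 ≤ 20 * (k + 1) * (3204 * (k + 1) ^ 2 * (N + 1)) + 1 := by
      simp only [h1]
      apply Nat.add_le_add_right
      apply Nat.mul_le_mul
      · omega
      · nlinarith
    have h' : 1 ≤ (k + 1) ^ 3 * (N + 1) := Nat.succ_le_of_lt (by positivity)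
    nlinarith
  have h : phi k N + 1 ≤ 2 * (k + 1) ^ 2 * (256324 * (k + 1) ^ 3 * (N + 1)) + (k + 1) ^ 2 := by
    have e4 : 2 * k ^ 2 + 1 ≤ 2 * (k + 1) ^ 2 := by nlinarith
    have e5 : 4 * h1 k N + 1 ≤ 256324 * (k + 1) ^ 3 * (N + 1) := by nlinarith
    have e6 := Nat.mul_le_mul e4 e5
    have e7 : k * (k + 1) + 1 ≤ (k + 1) ^ 2 := by nlinarith
    simp only [phi]
    omega
  have h' : (k + 1) ^ 2 ≤ (k + 1) ^ 5 * (N + 1) := by
    have e8 : (k + 1) ^ 2 ≤ (k + 1) ^ 5 := Nat.pow_le_pow_right (by omega) (by omega)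
    exact e8.trans (Nat.le_mul_of_pos_right _ (by omega))
  have h'' : 2 * (k + 1) ^ 2 * (256324 * (k + 1) ^ 3 * (N + 1)) = 512648 * ((k + 1) ^ 5 * (N + 1)) := by ring
  rw [h''] at h
  have h3 : 10 ^ 6 * (k + 1) ^ 5 * (N + 1) = 10 ^ 6 * ((k + 1) ^ 5 * (N + 1)) := by ring
  rw [h3]
  omega

theorem tot_le (k : ℕ) : ∀ t N, tot k t N + 1 ≤ (10 ^ 6 * (k + 1) ^ 5) ^ t * (N + 1) := by
  intro t
  induction t with
  | zero => intro N; simp [tot]
  | succ t ih =>
    intro N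
    have h1 := ih (phi k N)
    have h2 := Nat.mul_le_mul_left ((10 ^ 6 * (k + 1) ^ 5) ^ t) (phi_le k N)
    calc tot k (t + 1) N + 1 = tot k t (phi k N) + 1 := rfl
      _ ≤ (10 ^ 6 * (k + 1) ^ 5) ^ t * (phi k N + 1) := h1
      _ ≤ (10 ^ 6 * (k + 1) ^ 5) ^ t * (10 ^ 6 * (k + 1) ^ 5 * (N + 1)) := h2
      _ = (10 ^ 6 * (k + 1) ^ 5) ^ (t + 1) * (N + 1) := by ring

theorem bound_le (k : ℕ) : 2 * 3 ^ (k + 1) * nestBound k ≤ (20 * (k + 1)) ^ (5 * k + 7) := by
  have h1 := tot_le k (k + 1) (k * (k + 1))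
  have h2 : k * (k + 1) + 1 ≤ (k + 1) ^ 2 := by nlinarith
  have h3 : nestBound k ≤ (10 ^ 6 * (k + 1) ^ 5) ^ (k + 1) * (k + 1) ^ 2 := by
    have h4 := Nat.mul_le_mul_left ((10 ^ 6 * (k + 1) ^ 5) ^ (k + 1)) h2
    simp only [nestBound]
    omega
  calc 2 * 3 ^ (k + 1) * nestBound k
      ≤ 2 * 3 ^ (k + 1) * ((10 ^ 6 * (k + 1) ^ 5) ^ (k + 1) * (k + 1) ^ 2) := Nat.mul_le_mul_left _ h3
    _ = 2 * (3 * 10 ^ 6 * (k + 1) ^ 5) ^ (k + 1) * (k + 1) ^ 2 := by
        rw [mul_assoc 3 (10 ^ 6) ((k + 1) ^ 5), mul_pow 3 _ (k + 1)]; ring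
    _ ≤ 400 * (20 ^ 5 * (k + 1) ^ 5) ^ (k + 1) * (k + 1) ^ 2 := by
        apply Nat.mul_le_mul_right
        apply Nat.mul_le_mul (by norm_num)
        apply Nat.pow_le_pow_left
        apply Nat.mul_le_mul_right
        norm_num
    _ = (20 * (k + 1)) ^ (5 * (k + 1)) * (20 * (k + 1)) ^ 2 := by
        rw [pow_mul, mul_pow 20 (k + 1) 5, mul_pow 20 (k + 1) 2]; ring
    _ = (20 * (k + 1)) ^ (5 * k + 7) := by
        rw [← pow_add, show 5 * (k + 1) + 2 = 5 * k + 7 by ring]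

/-- the theorem with a closed bound -/
theorem main_thm [Fintype V] {pos : V → ℕ} {G : SimpleGraph V} {A : Sym2 V → Finset (Sym2 V)} {k : ℕ}
    (hinj : Function.Injective pos) (hA : ∀ e, (A e).card ≤ k)
    (hcr : ∀ z w x y, G.Adj z w → G.Adj x y → Cr pos z w x y → s(x, y) ∈ A s(z, w) ∨ s(z, w) ∈ A s(x, y)) :
    ∃ sig : V → ℕ, Function.Injective sig ∧ ∃ c : V → V → Fin ((20 * (k + 1)) ^ (5 * k + 7)),
      (∀ u v, c u v = c v u) ∧ ∀ u v x y, G.Adj u v → G.Adj x y → sig u < sig x → sig x < sig y → sig y < sig v →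
        c u v ≠ c x y := by
  obtain ⟨sig, h1, c, h2, h3⟩ := main_rec hinj hA hcr
  refine ⟨sig, h1, fun u v => Fin.castLE (bound_le k) (c u v), fun u v => by simp only [h2 u v], ?_⟩
  intro u v x y huv hxy e1 e2 e3 h
  exact h3 u v x y huv hxy e1 e2 e3 (Fin.castLE_injective _ h)

end Pool.Agent.Lib_MP_f04076
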