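import Pool.Agent.Lib_MP_f04076.Entry

set_option autoImplicit false

open Finset

namespace Pool.Agent.Lib_MP_f04076

variable {V : Type} {pos : V → ℕ} {G : SimpleGraph V} {A : Sym2 V → Finset (Sym2 V)} {k m : ℕ} {a b : ℕ → V}

/-- lengths of windows -/
def h3 (k N : ℕ) : ℕ := N + 10 * k + 1
def h2 (k N : ℕ) : ℕ := (20 * k + 1) * (4 * h3 k N + 1)
def h1 (k N : ℕ) : ℕ := (20 * k + 1) * (4 * h2 k N + 1)

/-- the window length needed for one more function -/
def phi (k N : ℕ) : ℕ := (2 * k ^ 2 + 1) * (4 * h1 k N + 1) + k * (k + 1)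

theorem step [Fintype V] (hinj : Function.Injective pos) (hN : Nest pos G m a b)
    (hA : ∀ e, (A e).card ≤ k)
    (hcr : ∀ z w x y, G.Adj z w → G.Adj x y → Cr pos z w x y → s(x, y) ∈ A s(z, w) ∨ s(z, w) ∈ A s(x, y))
    {L : List (V → ℕ)} (hL : Const m a b L) {lam : V → ℕ} {r : V}
    (hlam : IsDist (Arc pos G A L) r lam) (hcl : ∀ j ≤ m, lam (a j) = lam (a 0) ∧ lam (b j) = lam (b 0))
    (hr : ∀ x, pos r ≤ pos x) (N p0 q0 : ℕ) (hp0 : 1 ≤ p0) (hq0 : q0 ≤ m) (hlen : p0 + phi k N ≤ q0)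
    (hH0 : HH pos G a b L p0 q0) :
    ∃ p q, 1 ≤ p ∧ q ≤ m ∧ p + N ≤ q ∧ HH pos G a b (lam :: L) p q ∧
      (Full pos G a b L p0 q0).card + 1 ≤ (Full pos G a b (lam :: L) p q).card := by
  classical
  have hfc : (Full pos G a b L p0 q0).card ≤ k := full_card hN hA hcr L p0 q0 hq0 (by
    simp only [phi] at hlen
    omega)
  -- W1
  set Bad1 : Finset V := (((Full pos G a b L p0 q0).biUnion A)).biUnion fun e => e.toFinset with hBad1
  have hBad1c : Bad1.card ≤ 2 * k ^ 2 := by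
    have e1 : ((Full pos G a b L p0 q0).biUnion A).card ≤ (Full pos G a b L p0 q0).card * k :=
      Finset.card_biUnion_le_card_mul _ _ _ fun e _ => hA e
    have e2 : Bad1.card ≤ ((Full pos G a b L p0 q0).biUnion A).card * 2 := by
      apply Finset.card_biUnion_le_card_mul
      intro e _
      induction e using Sym2.ind with
      | _ u v =>
        rw [Sym2.toFinset_mk_eq]
        exact Finset.card_le_two
    have e3 : (Full pos G a b L p0 q0).card * k ≤ k * k := Nat.mul_le_mul_right _ hfc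
    nlinarith
  obtain ⟨p1, hp01, hp1l, hav1⟩ := select hN Bad1 (2 * k ^ 2) (4 * h1 k N) p0 hBad1c (by
    simp only [phi] at hlen
    omega)
  have hq1 : p1 + 4 * h1 k N ≤ q0 := by
    simp only [phi] at hlen
    omega
  have hB : ∀ e ∈ Full pos G a b L p0 q0, ∀ e' ∈ A e, ∀ x ∈ e', ¬ Zone pos a b p1 (p1 + 4 * h1 k N) x := by
    intro e he e' he' x hx
    apply hav1
    rw [hBad1, Finset.mem_biUnion]
    exact ⟨e', Finset.mem_biUnion.2 ⟨e, he, he'⟩, Sym2.mem_toFinset.2 hx⟩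
  have hent := entry hinj hN hcr hL hlam hcl hr hp0 hp01 (by omega) hq1 hq0 hH0 hB
  have hh3 : 2 * k ≤ h3 k N ∧ 1 ≤ h3 k N := by
    simp only [h3]
    omega
  have hh2 : 2 * k ≤ h2 k N ∧ 1 ≤ h2 k N := by
    simp only [h2]
    constructor
    · nlinarith [hh3.2]
    · nlinarith [hh3.2]
  have hh1 : 2 * k ≤ h1 k N ∧ 1 ≤ h1 k N := by
    simp only [h1]
    constructor
    · nlinarith [hh2.2]
    · nlinarith [hh2.2]
  -- W2
  have hlen1 : (20 * k + 1) * (4 * h2 k N + 1) = h1 k N := rfl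
  have hlen2 : (20 * k + 1) * (4 * h3 k N + 1) = h2 k N := rfl
  set Bad2 : Finset V := univ.filter fun x => Zone pos a b (p1 + h1 k N) (p1 + 3 * h1 k N) x ∧
    ∃ w, G.Adj x w ∧ ¬ Zone pos a b p1 (p1 + 4 * h1 k N) w with hBad2
  have hBad2c : Bad2.card ≤ 20 * k := few hN hA hcr p1 (h1 k N) hh1.1 hh1.2 (by omega) Bad2 (by
    intro x hx
    exact (Finset.mem_filter.1 hx).2)
  obtain ⟨p2, hp12, hp2l, hav2⟩ := select hN Bad2 (20 * k) (4 * h2 k N) (p1 + h1 k N) hBad2c (by
    rw [hlen1]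
    omega)
  rw [hlen1] at hp2l
  have hlam2 : ∀ x, Zone pos a b p2 (p2 + 4 * h2 k N) x → lev a b lam ≤ lam x := by
    intro x hx
    by_contra hlt
    push Not at hlt
    have hx1 : Zone pos a b p1 (p1 + 4 * h1 k N) x := hx.mono hN (by omega) (by omega) (by omega) (by omega)
    obtain ⟨-, hw⟩ := hent (lam x) x rfl hx1 hlt
    refine hav2 x ?_ hx
    rw [hBad2, Finset.mem_filter]
    exact ⟨Finset.mem_univ _, hx.mono hN (by omega) (by omega) (by omega) (by omega), hw⟩
  -- W3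
  set Bad3 : Finset V := univ.filter fun x => Zone pos a b (p2 + h2 k N) (p2 + 3 * h2 k N) x ∧
    ∃ w, G.Adj x w ∧ ¬ Zone pos a b p2 (p2 + 4 * h2 k N) w with hBad3
  have hBad3c : Bad3.card ≤ 20 * k := few hN hA hcr p2 (h2 k N) hh2.1 hh2.2 (by omega) Bad3 (by
    intro x hx
    exact (Finset.mem_filter.1 hx).2)
  obtain ⟨p3, hp23, hp3l, hav3⟩ := select hN Bad3 (20 * k) (4 * h3 k N) (p2 + h2 k N) hBad3c (by
    rw [hlen2]
    omega)
  rw [hlen2] at hp3l
  have hHH : HH pos G a b (lam :: L) p3 (p3 + 4 * h3 k N) := by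
    intro x hx mu hmu
    rw [List.mem_cons] at hmu
    rcases hmu with rfl | hmu
    · refine ⟨hlam2 x (hx.mono hN (by omega) (by omega) (by omega) (by omega)), ?_⟩
      intro y hy
      by_contra hlt
      refine hav3 x ?_ hx
      rw [hBad3, Finset.mem_filter]
      refine ⟨Finset.mem_univ _, hx.mono hN (by omega) (by omega) (by omega) (by omega), y, hy, ?_⟩
      intro hyz
      exact hlt (hlam2 y hyz)
    · exact hH0 x (hx.mono hN (by omega) (by omega) (by omega) (by omega)) mu hmu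
  -- the chord `j`
  set c : ℕ → V := fun j => if lam (a 0) ≤ lam (b 0) then a j else b j with hc
  have hcab : ∀ j, c j = a j ∨ c j = b j := by
    intro j
    simp only [hc]
    split_ifs
    · exact Or.inl rfl
    · exact Or.inr rfl
  have hclev : ∀ j ≤ m, lam (c j) = lev a b lam := by
    intro j hj
    obtain ⟨e1, e2⟩ := hcl j hj
    simp only [hc, lev]
    split_ifs with h
    · rw [e1]; omega
    · rw [e2]; omega
  have hcinj : ∀ i j, i ≤ m → j ≤ m → c i = c j → i = j := by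
    intro i j hi hj hij
    by_contra hne
    wlog hlt : i < j generalizing i j
    · exact this j i hj hi hij.symm (Ne.symm hne) (by omega)
    have e1 := hN.a_lt i j hlt hj
    have e2 := hN.b_lt i j hlt hj
    simp only [hc] at hij
    split_ifs at hij
    · rw [hij] at e1; omega
    · rw [hij] at e2; omega
  set Bad4 : Finset V := univ.filter fun x => Zone pos a b (p3 + h3 k N) (p3 + 3 * h3 k N) x ∧
    ∃ w, G.Adj x w ∧ ¬ Zone pos a b p3 (p3 + 4 * h3 k N) w with hBad4
  have hBad4c : Bad4.card ≤ 20 * k := few hN hA hcr p3 (h3 k N) hh3.1 hh3.2 (by omega) Bad4 (by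
    intro x hx
    exact (Finset.mem_filter.1 hx).2)
  have hj : ∃ j, p3 + h3 k N ≤ j ∧ j ≤ p3 + 3 * h3 k N ∧ c j ∉ Bad4 := by
    by_contra hcon
    push Not at hcon
    have hle : (Finset.Icc (p3 + h3 k N) (p3 + 3 * h3 k N)).card ≤ Bad4.card := by
      refine Finset.card_le_card_of_injOn c ?_ ?_
      · intro j hj
        have hj' := Finset.mem_Icc.1 (Finset.mem_coe.1 hj)
        exact Finset.mem_coe.2 (hcon j hj'.1 hj'.2)
      · intro i hi j hj hij
        have hi' := Finset.mem_Icc.1 (Finset.mem_coe.1 hi)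
        have hj' := Finset.mem_Icc.1 (Finset.mem_coe.1 hj)
        exact hcinj i j (by omega) (by omega) hij
    rw [Nat.card_Icc] at hle
    simp only [h3] at hle
    omega
  obtain ⟨j, hj1, hj2, hj3⟩ := hj
  have hcz : Zone pos a b (p3 + h3 k N) (p3 + 3 * h3 k N) (c j) := by
    have e1 := hN.a_le hj1 (by omega)
    have e2 := hN.b_le hj1 (by omega)
    have e3 := hN.a_le hj2 (by omega)
    have e4 := hN.b_le hj2 (by omega)
    have e5 := hN.ab j (by omega)
    simp only [Zone]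
    rcases hcab j with h | h
    · rw [h]; omega
    · rw [h]; omega
  obtain ⟨e, he1, he2⟩ := new_edge hN hcr hlam hr hp0 hp01 (p := p3) (q := p3 + 4 * h3 k N)
    (q1 := p1 + 4 * h1 k N) (by omega) (by omega) hq1 hq0 hH0 hB hHH (j := j) (by omega) (by omega) (hcab j)
    (hclev j (by omega)) (by
      intro w hw
      by_contra hwz
      apply hj3
      rw [hBad4, Finset.mem_filter]
      exact ⟨Finset.mem_univ _, hcz, w, hw, hwz⟩)
  refine ⟨p3, p3 + 4 * h3 k N, by omega, by omega, by simp only [h3]; omega, hHH, ?_⟩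
  have hsub : insert e (Full pos G a b L p0 q0) ⊆ Full pos G a b (lam :: L) p3 (p3 + 4 * h3 k N) := by
    intro f hf
    rw [Finset.mem_insert] at hf
    rcases hf with rfl | hf
    · exact he1
    · rw [mem_full] at hf ⊢
      obtain ⟨z, w, rfl, hzw, hz, hw, mu, hmu, hup⟩ := hf
      exact ⟨z, w, rfl, hzw, hz.mono hN (by omega) (by omega), hw.mono hN (by omega) hq0, mu,
        List.mem_cons_of_mem _ hmu, hup⟩
  have := Finset.card_le_card hsub
  rw [Finset.card_insert_of_notMem he2] at this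
  exact this

/-- total length -/
def tot (k : ℕ) : ℕ → ℕ → ℕ
  | 0, N => N
  | t + 1, N => tot k t (phi k N)

/-- the bound for nests -/
def nestBound (k : ℕ) : ℕ := 1 + tot k (k + 1) (k * (k + 1))

theorem windows [Fintype V] (hinj : Function.Injective pos) (hN : Nest pos G m a b)
    (hA : ∀ e, (A e).card ≤ k)
    (hcr : ∀ z w x y, G.Adj z w → G.Adj x y → Cr pos z w x y → s(x, y) ∈ A s(z, w) ∨ s(z, w) ∈ A s(x, y))
    {r : V} (hr : ∀ x, pos r ≤ pos x) (Ls : ℕ → List (V → ℕ)) (h0 : Ls 0 = [])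
    (hs : ∀ t, ∃ lam, IsDist (Arc pos G A (Ls t)) r lam ∧ Ls (t + 1) = lam :: Ls t) :
    ∀ t, Const m a b (Ls t) → ∀ N, 1 + tot k t N ≤ m → ∃ p q, 1 ≤ p ∧ q ≤ m ∧ p + N ≤ q ∧
      HH pos G a b (Ls t) p q ∧ t ≤ (Full pos G a b (Ls t) p q).card := by
  intro t
  induction t with
  | zero =>
    intro _ N hm
    simp only [tot] at hm
    refine ⟨1, 1 + N, le_refl _, hm, le_refl _, ?_, Nat.zero_le _⟩
    intro x _ mu hmu
    rw [h0] at hmu
    exact absurd hmu List.not_mem_nil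
  | succ t ih =>
    intro hc N hm
    obtain ⟨lam, hlam, hLs⟩ := hs t
    rw [hLs] at hc ⊢
    have hct : Const m a b (Ls t) := fun mu hmu => hc mu (List.mem_cons_of_mem _ hmu)
    obtain ⟨p0, q0, hp0, hq0, hlen, hH0, hF⟩ := ih hct (phi k N) hm
    obtain ⟨p, q, h1, h2, h3, h4, h5⟩ := step hinj hN hA hcr hct hlam
      (fun j hj => hc lam List.mem_cons_self j hj) hr N p0 q0 hp0 hq0 hlen hH0
    exact ⟨p, q, h1, h2, h3, h4, by omega⟩

/-- NEST BOUND -/
theorem nest_bound [Fintype V] (hinj : Function.Injective pos) (hN : Nest pos G m a b)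
    (hA : ∀ e, (A e).card ≤ k)
    (hcr : ∀ z w x y, G.Adj z w → G.Adj x y → Cr pos z w x y → s(x, y) ∈ A s(z, w) ∨ s(z, w) ∈ A s(x, y))
    {r : V} (hr : ∀ x, pos r ≤ pos x) (Ls : ℕ → List (V → ℕ)) (h0 : Ls 0 = [])
    (hs : ∀ t, ∃ lam, IsDist (Arc pos G A (Ls t)) r lam ∧ Ls (t + 1) = lam :: Ls t)
    (hc : Const m a b (Ls (k + 1))) : m < nestBound k := by
  by_contra hm
  push Not at hm
  obtain ⟨p, q, h1, h2, h3, h4, h5⟩ := windows hinj hN hA hcr hr Ls h0 hs (k + 1) hc (k * (k + 1)) hm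
  have h6 := full_card hN hA hcr (Ls (k + 1)) p q h2 (by omega)
  omega

end Pool.Agent.Lib_MP_f04076
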